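import Pool.Agent.H69.LQ.Lib

/-!
# MP_8f7db2_an, row ME: the mean in the outer region
-/

set_option autoImplicit false

open MeasureTheory Metric Set
open scoped ENNReal

open Pool.Agent.H85.LK (E adm lam Ann)
open Pool.Agent.H69.LQ

namespace Pool.Agent.H42.LQ

variable {N : ℕ}

theorem BM_ite {F : Sp N → ℝ} (hF : BM F) {R : Sp N → ℝ} (hR : Measurable R) (r : ℝ) :
    BM (fun θ => if r ≤ R θ then F θ else 0) := by
  obtain ⟨h1, M, h2⟩ := hF
  refine ⟨Measurable.ite (measurableSet_le measurable_const hR) h1 measurable_const, |M|,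
    fun θ => ?_⟩
  dsimp only
  split_ifs
  · exact (h2 θ).trans (le_abs_self M)
  · rw [abs_zero]
    exact abs_nonneg M

theorem BM_ite' {F : Sp N → ℝ} (hF : BM F) {R : Sp N → ℝ} (hR : Measurable R) (r : ℝ) :
    BM (fun θ => if r ≤ R θ then 0 else F θ) := by
  obtain ⟨h1, M, h2⟩ := hF
  refine ⟨Measurable.ite (measurableSet_le measurable_const hR) measurable_const h1, |M|,
    fun θ => ?_⟩
  dsimp only
  split_ifs
  · rw [abs_zero]
    exact abs_nonneg M
  · exact (h2 θ).trans (le_abs_self M)

/-- Fubini for bounded measurable functions -/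
theorem swap {a b : ℝ} (hab : a ≤ b) {g : ℝ × Sp N → ℝ} (hg : Measurable g) (M : ℝ)
    (hM : ∀ r ∈ Icc a b, ∀ θ, |g (r, θ)| ≤ M) :
    IntervalIntegrable (fun r => av fun θ => g (r, θ)) volume a b ∧
      ∫ r in a..b, av (fun θ => g (r, θ)) = av fun θ => ∫ r in a..b, g (r, θ) := by
  have hint : Integrable g ((volume.restrict (Ioc a b)).prod (mS N)) := by
    refine Integrable.of_bound hg.aestronglyMeasurable M ?_
    have e : (volume.restrict (Ioc a b)).prod (mS N) =
        ((volume : Measure ℝ).prod (mS N)).restrict (Ioc a b ×ˢ univ) := by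
      rw [← Measure.prod_restrict, Measure.restrict_univ]
    rw [e]
    refine ae_restrict_of_forall_mem (measurableSet_Ioc.prod MeasurableSet.univ) fun p hp => ?_
    rw [Real.norm_eq_abs]
    exact hM p.1 (Ioc_subset_Icc_self hp.1) p.2
  refine ⟨?_, ?_⟩
  · rw [intervalIntegrable_iff_integrableOn_Ioc_of_le hab]
    exact hint.integral_prod_left
  · rw [intervalIntegral.integral_of_le hab]
    have h := integral_integral_swap (μ := volume.restrict (Ioc a b)) (ν := mS N)
      (f := fun r θ => g (r, θ)) hint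
    unfold av
    rw [h]
    refine integral_congr_ae (Filter.Eventually.of_forall fun θ => ?_)
    change _ = ∫ r in a..b, g (r, θ)
    rw [intervalIntegral.integral_of_le hab]

theorem bdd {a b : ℝ} {F : ℝ × Sp N → ℝ} (hF : Continuous F) :
    ∃ M : ℝ, 0 ≤ M ∧ ∀ r ∈ Icc a b, ∀ θ, |F (r, θ)| ≤ M := by
  obtain ⟨M, hM⟩ := ((isCompact_Icc (a := a) (b := b)).prod
    (isCompact_univ (X := Sp N))).exists_bound_of_continuousOn (f := F) hF.continuousOn
  exact ⟨|M|, abs_nonneg M, fun r hr θ => (by simpa using hM (r, θ) ⟨hr, mem_univ θ⟩ :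
    |F (r, θ)| ≤ M).trans (le_abs_self M)⟩

/-- the part before `R` -/
theorem part1 {a b : ℝ} (hab : a ≤ b) {F : ℝ × Sp N → ℝ} (hF : Continuous F) {R : Sp N → ℝ}
    (hR : Measurable R) (h1 : ∀ θ, a ≤ R θ) (h2 : ∀ θ, R θ ≤ b) :
    IntervalIntegrable (fun r => av fun θ => if r ≤ R θ then F (r, θ) else 0) volume a b ∧
      ∫ r in a..b, av (fun θ => if r ≤ R θ then F (r, θ) else 0) =
        av fun θ => ∫ r in a..R θ, F (r, θ) := by
  obtain ⟨M, hM0, hM⟩ := bdd (a := a) (b := b) hF
  have hmeas : Measurable fun p : ℝ × Sp N => if p.1 ≤ R p.2 then F p else 0 :=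
    Measurable.ite (measurableSet_le measurable_fst (hR.comp measurable_snd)) hF.measurable
      measurable_const
  obtain ⟨h3, h4⟩ := swap hab hmeas M (fun r hr θ => by
    dsimp only
    split_ifs
    · exact hM r hr θ
    · rw [abs_zero]
      exact hM0)
  refine ⟨h3, h4.trans ?_⟩
  unfold av
  refine integral_congr_ae (Filter.Eventually.of_forall fun θ => ?_)
  change (∫ r in a..b, if r ≤ R θ then F (r, θ) else 0) = ∫ r in a..R θ, F (r, θ)
  rw [intervalIntegral.integral_of_le hab, intervalIntegral.integral_of_le (h1 θ)]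
  have e : (fun r => if r ≤ R θ then F (r, θ) else 0) =
      (Iic (R θ)).indicator fun r => F (r, θ) := by
    funext r
    rw [indicator_apply]
    rfl
  rw [e, setIntegral_indicator measurableSet_Iic, Ioc_inter_Iic, inf_eq_right.2 (h2 θ)]

/-- the part after `R` -/
theorem part2 {a b : ℝ} (hab : a ≤ b) {F : ℝ × Sp N → ℝ} (hF : Continuous F) {R : Sp N → ℝ}
    (hR : Measurable R) (h1 : ∀ θ, a ≤ R θ) (h2 : ∀ θ, R θ ≤ b) :
    IntervalIntegrable (fun r => av fun θ => if r ≤ R θ then 0 else F (r, θ)) volume a b ∧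
      ∫ r in a..b, av (fun θ => if r ≤ R θ then 0 else F (r, θ)) =
        av fun θ => ∫ r in R θ..b, F (r, θ) := by
  obtain ⟨M, hM0, hM⟩ := bdd (a := a) (b := b) hF
  have hmeas : Measurable fun p : ℝ × Sp N => if p.1 ≤ R p.2 then 0 else F p :=
    Measurable.ite (measurableSet_le measurable_fst (hR.comp measurable_snd)) measurable_const
      hF.measurable
  obtain ⟨h3, h4⟩ := swap hab hmeas M (fun r hr θ => by
    dsimp only
    split_ifs
    · rw [abs_zero]
      exact hM0
    · exact hM r hr θ)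
  refine ⟨h3, h4.trans ?_⟩
  unfold av
  refine integral_congr_ae (Filter.Eventually.of_forall fun θ => ?_)
  change (∫ r in a..b, if r ≤ R θ then 0 else F (r, θ)) = ∫ r in R θ..b, F (r, θ)
  rw [intervalIntegral.integral_of_le hab, intervalIntegral.integral_of_le (h2 θ)]
  have e : (fun r => if r ≤ R θ then 0 else F (r, θ)) =
      (Ioi (R θ)).indicator fun r => F (r, θ) := by
    funext r
    rw [indicator_apply]
    by_cases h : r ≤ R θ
    · rw [if_pos h, if_neg (by simpa using h)]
    · rw [if_neg h, if_pos (by simpa using h)]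
  rw [e, setIntegral_indicator measurableSet_Ioi, Ioc_inter_Ioi, sup_eq_right.2 (h1 θ)]

theorem pf_ME (hMO : T_MO) (hPH : T_PH) (hAS : T_AS) : T_ME := by
  intro N L hN hFz
  obtain ⟨C0, δ1, hC0, hδ1, _, hexp⟩ := hAS N L hN hFz
  have hpc : Continuous (ph N L 1) := ((hPH N L hN).2.1 1).1.continuous
  have hone : av (fun _ : Sp N => (1 : ℝ)) = 1 := (hMO N hN).1
  refine ⟨3 * (6 * C0 ^ 2 + 1), min (1 / 20) (δ1 / 5), by positivity,
    lt_min (by norm_num) (by positivity), min_le_left _ _, ?_⟩
  intro δ R u T hδ hδ0 hR hRb hu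
  have hδ20 : δ ≤ 1 / 20 := hδ0.trans (min_le_left _ _)
  have hδ5 : 5 * δ ≤ δ1 := by
    have := hδ0.trans (min_le_right _ _)
    linarith
  set a : ℝ := 1 - δ with ha
  set b : ℝ := 1 + 5 * δ with hb
  have hab : a ≤ b := by rw [ha, hb]; linarith
  have h1 : ∀ θ, a ≤ R θ := fun θ => (hRb θ).1.le
  have h2 : ∀ θ, R θ ≤ b := fun θ => (hRb θ).2
  have hp : ∀ r ∈ Icc a b, |ph N L 1 r| ≤ C0 * |r - 1| := by
    intro r hr
    refine (hexp r ?_).2.2.1
    rw [abs_le]
    have := hr.1
    have := hr.2
    constructor <;> linarith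
  -- continuity
  have huc : Continuous fun q : ℝ × Sp N => rs u q.1 q.2 := by
    unfold rs
    exact hu.comp (continuous_fst.smul (continuous_subtype_val.comp continuous_snd))
  have htc : Continuous fun θ : Sp N => inner ℝ T (θ : E N) := by fun_prop
  have hwc : Continuous fun q : ℝ × Sp N =>
      rs u q.1 q.2 - inner ℝ T (q.2 : E N) * ph N L 1 q.1 :=
    huc.sub ((htc.comp continuous_snd).mul (hpc.comp continuous_fst))
  have hwc2 : Continuous fun q : ℝ × Sp N =>
      (rs u q.1 q.2 - inner ℝ T (q.2 : E N) * ph N L 1 q.1) ^ 2 := hwc.pow 2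
  have huc2 : Continuous fun q : ℝ × Sp N => rs u q.1 q.2 ^ 2 := huc.pow 2
  obtain ⟨i1, e1⟩ := part1 hab hwc2 hR h1 h2
  obtain ⟨i2, e2⟩ := part2 hab huc2 hR h1 h2
  dsimp only at i1 e1 i2 e2
  have havt : av (fun θ : Sp N => inner ℝ T (θ : E N)) = 0 := by
    have e : (fun θ : Sp N => inner ℝ T (θ : E N)) = fun θ : Sp N => ∑ i, T i * (θ : E N) i := by
      funext θ
      rw [PiLp.inner_apply]
      refine Finset.sum_congr rfl fun i _ => ?_
      simp [mul_comm]
    rw [e, av_sum _ fun i _ => (BM_coord i).const_mul (T i)]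
    refine Finset.sum_eq_zero fun i _ => ?_
    rw [av_const_mul, (hMO N hN).2.1 i, mul_zero]
  have hRBM : BM (fun θ => (R θ - 1) ^ 2) := by
    refine ⟨(hR.sub measurable_const).pow_const 2, 1, fun θ => ?_⟩
    have := h1 θ
    have := h2 θ
    rw [abs_of_nonneg (sq_nonneg _)]
    nlinarith
  set V : ℝ := av (fun θ => (R θ - 1) ^ 2) with hV
  have hV0 : 0 ≤ V := av_nonneg fun θ => sq_nonneg _
  -- the pointwise inequality
  have key : ∀ r ∈ Icc a b, av (rs u r) ^ 2 ≤ 3 * (C0 ^ 2 * ‖T‖ ^ 2 * V) +
      (3 * av (fun θ => if r ≤ R θ then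
        (rs u r θ - inner ℝ T (θ : E N) * ph N L 1 r) ^ 2 else 0) +
      3 * av (fun θ => if r ≤ R θ then 0 else rs u r θ ^ 2)) := by
    intro r hr
    have bu : BM (rs u r) := BM_cont (huc.comp (continuous_const.prodMk continuous_id))
    have bt : BM (fun θ : Sp N => inner ℝ T (θ : E N)) := BM_inner T
    have bw : BM (fun θ : Sp N => rs u r θ - inner ℝ T (θ : E N) * ph N L 1 r) :=
      bu.sub (bt.mul (BM_const _))
    set A : Sp N → ℝ := fun θ => if r ≤ R θ then inner ℝ T (θ : E N) else 0 with hA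
    set B : Sp N → ℝ := fun θ => if r ≤ R θ then
      rs u r θ - inner ℝ T (θ : E N) * ph N L 1 r else 0 with hB
    set D : Sp N → ℝ := fun θ => if r ≤ R θ then 0 else rs u r θ with hD
    have bA : BM A := BM_ite bt hR r
    have bB : BM B := BM_ite bw hR r
    have bD : BM D := BM_ite' bu hR r
    have es : av (rs u r) = av A * ph N L 1 r + av B + av D := by
      rw [← av_mul_const, ← av_add (bA.mul (BM_const _)) bB,
        ← av_add ((bA.mul (BM_const _)).add bB) bD]
      congr 1
      funext θ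
      simp only [hA, hB, hD]
      split_ifs <;> ring
    have cB : av B ^ 2 ≤ av (fun θ => if r ≤ R θ then
        (rs u r θ - inner ℝ T (θ : E N) * ph N L 1 r) ^ 2 else 0) := by
      have h := av_cs bB (BM_const (N := N) 1)
      simp only [mul_one, one_pow] at h
      rw [hone, mul_one] at h
      refine h.trans (le_of_eq ?_)
      congr 1
      funext θ
      simp only [hB]
      split_ifs <;> ring
    have cD : av D ^ 2 ≤ av (fun θ => if r ≤ R θ then 0 else rs u r θ ^ 2) := by
      have h := av_cs bD (BM_const (N := N) 1)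
      simp only [mul_one, one_pow] at h
      rw [hone, mul_one] at h
      refine h.trans (le_of_eq ?_)
      congr 1
      funext θ
      simp only [hD]
      split_ifs <;> ring
    -- the linear part
    set Z : Sp N → ℝ := fun θ => if |r - 1| ≤ |R θ - 1| then 1 else 0 with hZ
    have bZ : BM Z := by
      refine ⟨Measurable.ite (measurableSet_le measurable_const
        ((hR.sub measurable_const).norm)) measurable_const measurable_const, 1, fun θ => ?_⟩
      simp only [hZ]
      split_ifs <;> norm_num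
    have htT : ∀ θ : Sp N, |inner ℝ T (θ : E N)| ≤ ‖T‖ := by
      intro θ
      have h := abs_real_inner_le_norm T (θ : E N)
      rwa [norm_sp, mul_one] at h
    have cA : |av A| ≤ ‖T‖ * av Z := by
      rw [← av_const_mul]
      rcases le_total 1 r with hr1 | hr1
      · refine abs_av_le bA (bZ.const_mul _) fun θ => ?_
        simp only [hA, hZ]
        by_cases h : r ≤ R θ
        · have h' : |r - 1| ≤ |R θ - 1| := by
            rw [abs_of_nonneg (by linarith), abs_of_nonneg (by linarith)]
            linarith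
          rw [if_pos h, if_pos h', mul_one]
          exact htT θ
        · rw [if_neg h, abs_zero]
          split_ifs
          · rw [mul_one]; exact norm_nonneg T
          · rw [mul_zero]
      · set A' : Sp N → ℝ := fun θ => if r ≤ R θ then 0 else inner ℝ T (θ : E N) with hA'
        have bA' : BM A' := BM_ite' bt hR r
        have e3 : av A = - av A' := by
          have e4 : av A + av A' = 0 := by
            rw [← av_add bA bA', ← havt]
            congr 1
            funext θ
            simp only [hA, hA']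
            split_ifs <;> ring
          linarith
        rw [e3, abs_neg]
        refine abs_av_le bA' (bZ.const_mul _) fun θ => ?_
        simp only [hA', hZ]
        by_cases h : r ≤ R θ
        · rw [if_pos h, abs_zero]
          split_ifs
          · rw [mul_one]; exact norm_nonneg T
          · rw [mul_zero]
        · have h' : |r - 1| ≤ |R θ - 1| := by
            rw [not_le] at h
            rw [abs_of_nonpos (by linarith), abs_of_nonpos (by linarith)]
            linarith
          rw [if_neg h, if_pos h', mul_one]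
          exact htT θ
    have hZ0 : 0 ≤ av Z := av_nonneg fun θ => by
      simp only [hZ]
      split_ifs <;> norm_num
    have hZ1 : av Z ≤ 1 := by
      rw [← hone]
      refine av_mono bZ (BM_const 1) fun θ => ?_
      simp only [hZ]
      split_ifs <;> norm_num
    have hZV : (r - 1) ^ 2 * av Z ≤ V := by
      rw [← av_const_mul]
      refine av_mono (bZ.const_mul _) hRBM fun θ => ?_
      simp only [hZ]
      by_cases h : |r - 1| ≤ |R θ - 1|
      · rw [if_pos h, mul_one]
        exact sq_le_sq.2 h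
      · rw [if_neg h, mul_zero]
        exact sq_nonneg _
    have cAp : (av A * ph N L 1 r) ^ 2 ≤ C0 ^ 2 * ‖T‖ ^ 2 * V := by
      have h3 : (av A) ^ 2 ≤ ‖T‖ ^ 2 * av Z := by
        have h4 : (av A) ^ 2 ≤ (‖T‖ * av Z) ^ 2 := by
          rw [← sq_abs (av A)]
          exact pow_le_pow_left₀ (abs_nonneg _) cA 2
        have h5 : (‖T‖ * av Z) ^ 2 ≤ ‖T‖ ^ 2 * av Z := by
          rw [mul_pow]
          refine mul_le_mul_of_nonneg_left ?_ (sq_nonneg _)
          nlinarith
        exact h4.trans h5
      have h6 : (ph N L 1 r) ^ 2 ≤ C0 ^ 2 * (r - 1) ^ 2 := by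
        rw [← sq_abs (ph N L 1 r), ← sq_abs (r - 1), ← mul_pow]
        exact pow_le_pow_left₀ (abs_nonneg _) (hp r hr) 2
      calc (av A * ph N L 1 r) ^ 2 = (av A) ^ 2 * (ph N L 1 r) ^ 2 := by ring
        _ ≤ (‖T‖ ^ 2 * av Z) * (C0 ^ 2 * (r - 1) ^ 2) := by
            refine mul_le_mul h3 h6 (sq_nonneg _) ?_
            positivity
        _ = C0 ^ 2 * ‖T‖ ^ 2 * ((r - 1) ^ 2 * av Z) := by ring
        _ ≤ C0 ^ 2 * ‖T‖ ^ 2 * V := mul_le_mul_of_nonneg_left hZV (by positivity)
    rw [es]
    have h7 : (av A * ph N L 1 r + av B + av D) ^ 2 ≤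
        3 * (av A * ph N L 1 r) ^ 2 + (3 * av B ^ 2 + 3 * av D ^ 2) := by
      nlinarith [sq_nonneg (av A * ph N L 1 r - av B), sq_nonneg (av A * ph N L 1 r - av D),
        sq_nonneg (av B - av D)]
    linarith
  -- integration
  have hcont : Continuous fun r : ℝ => av (rs u r) := by
    have h := continuous_parametric_integral_of_continuous (μ := mS N) (s := univ)
      (f := fun (r : ℝ) (θ : Sp N) => rs u r θ) huc isCompact_univ
    simpa [av] using h
  have hcont2 : Continuous fun r : ℝ => av (rs u r) ^ 2 := hcont.pow 2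
  have hmono := intervalIntegral.integral_mono_on hab
    (hcont2.intervalIntegrable a b)
    ((intervalIntegrable_const (c := 3 * (C0 ^ 2 * ‖T‖ ^ 2 * V))).add
      ((i1.const_mul 3).add (i2.const_mul 3))) key
  have e0 : ∫ r in a..b, (3 * (C0 ^ 2 * ‖T‖ ^ 2 * V) +
      (3 * av (fun θ => if r ≤ R θ then
        (rs u r θ - inner ℝ T (θ : E N) * ph N L 1 r) ^ 2 else 0) +
      3 * av (fun θ => if r ≤ R θ then 0 else rs u r θ ^ 2))) =
      (b - a) * (3 * (C0 ^ 2 * ‖T‖ ^ 2 * V)) +
        (3 * av (fun θ => ∫ r in a..R θ,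
          (rs u r θ - inner ℝ T (θ : E N) * ph N L 1 r) ^ 2) +
        3 * av (fun θ => ∫ r in R θ..b, rs u r θ ^ 2)) := by
    rw [intervalIntegral.integral_add intervalIntegrable_const
      ((i1.const_mul 3).add (i2.const_mul 3)),
      intervalIntegral.integral_add (i1.const_mul 3) (i2.const_mul 3),
      intervalIntegral.integral_const_mul (3 : ℝ) (fun r => av (fun θ => if r ≤ R θ then
        (rs u r θ - inner ℝ T (θ : E N) * ph N L 1 r) ^ 2 else 0)),
      intervalIntegral.integral_const_mul (3 : ℝ) (fun r => av (fun θ =>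
        if r ≤ R θ then 0 else rs u r θ ^ 2)), e1, e2,
      intervalIntegral.integral_const, smul_eq_mul]
  rw [e0] at hmono
  have n1' : 0 ≤ av (fun θ => ∫ r in a..R θ,
      (rs u r θ - inner ℝ T (θ : E N) * ph N L 1 r) ^ 2) :=
    av_nonneg fun θ => intervalIntegral.integral_nonneg (h1 θ) fun r _ => sq_nonneg _
  have n2' : 0 ≤ av (fun θ => ∫ r in R θ..b, rs u r θ ^ 2) :=
    av_nonneg fun θ => intervalIntegral.integral_nonneg (h2 θ) fun r _ => sq_nonneg _
  have hba : b - a = 6 * δ := by rw [ha, hb]; ring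
  rw [hba] at hmono
  refine hmono.trans ?_
  set I1 := av (fun θ => ∫ r in a..R θ, (rs u r θ - inner ℝ T (θ : E N) * ph N L 1 r) ^ 2)
  set I2 := av (fun θ => ∫ r in R θ..b, rs u r θ ^ 2)
  have hX : 0 ≤ δ * ‖T‖ ^ 2 * V := by positivity
  have hc : 0 ≤ C0 ^ 2 := sq_nonneg _
  nlinarith [mul_nonneg hc n1', mul_nonneg hc n2']

end Pool.Agent.H42.LQ
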