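import Pool.Agent.H69.LQ.Lib

/-!
# MP_8f7db2_an, row V3: the centre and the first exit
-/

set_option autoImplicit false

open MeasureTheory Metric Set
open scoped ENNReal

open Pool.Agent.H85.LK (E adm lam Ann)
open Pool.Agent.H69.LQ

namespace Pool.Agent.H42.LQ

theorem mul_exp_le_one (r : ℝ) : r * Real.exp (-r ^ 2) ≤ 1 := by
  have h1 := Real.add_one_le_exp (r ^ 2)
  have h2 : r ≤ Real.exp (r ^ 2) := by nlinarith [sq_nonneg (r - 1 / 2)]
  rw [Real.exp_neg, ← div_eq_mul_inv, div_le_one (Real.exp_pos _)]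
  exact h2

theorem abs_mul_exp_le_one (r : ℝ) : |r| * Real.exp (-r ^ 2) ≤ 1 := by
  have h := mul_exp_le_one |r|
  rwa [sq_abs] at h

/-- one ray -/
theorem ray3 (N : ℕ) (hN : 1 ≤ N) (R : ℝ) (hR : 0 < R) (s : ℝ → ℝ)
    (hs : IntegrableOn (fun r => r ^ (N - 1) * s r) (Ioi 0)) (hs0 : ∀ r, 0 ≤ s r)
    (hs1 : ∀ r, 0 < r → r < R → s r = 1) :
    |(∫ r in Ioi (0 : ℝ), r ^ N * Real.exp (-r ^ 2) * s r) - qq N R| ≤
      (∫ r in Ioi (0 : ℝ), r ^ (N - 1) * s r) - R ^ N / N := by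
  have hN0 : (0 : ℝ) < N := by exact_mod_cast hN
  have e1 : ∀ r : ℝ, r ^ N = r * r ^ (N - 1) := by
    intro r
    rw [← pow_succ']
    congr 1
    omega
  have hc : Continuous fun r : ℝ => r * Real.exp (-r ^ 2) := by fun_prop
  have hs' : IntegrableOn (fun r => r ^ N * Real.exp (-r ^ 2) * s r) (Ioi 0) := by
    have h := hs.bdd_mul (c := 1) (f := fun r : ℝ => r * Real.exp (-r ^ 2))
      hc.aestronglyMeasurable (ae_of_all _ fun r => by
        rw [Real.norm_eq_abs, abs_mul, abs_of_pos (Real.exp_pos _)]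
        exact abs_mul_exp_le_one r)
    refine h.congr (ae_of_all _ fun r => ?_)
    change r * Real.exp (-r ^ 2) * (r ^ (N - 1) * s r) = r ^ N * Real.exp (-r ^ 2) * s r
    rw [e1]
    ring
  have hsub : Ioi R ⊆ Ioi (0 : ℝ) := Ioi_subset_Ioi hR.le
  have hsub' : Ioc 0 R ⊆ Ioi (0 : ℝ) := Ioc_subset_Ioi_self
  have hdis : Disjoint (Ioc 0 R) (Ioi R) := Ioc_disjoint_Ioi le_rfl
  have hun : Ioc 0 R ∪ Ioi R = Ioi 0 := Ioc_union_Ioi_eq_Ioi hR.le
  have k1 : ∫ r in Ioi (0 : ℝ), r ^ (N - 1) * s r =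
      R ^ N / N + ∫ r in Ioi R, r ^ (N - 1) * s r := by
    rw [← hun, setIntegral_union hdis measurableSet_Ioi (hs.mono_set hsub') (hs.mono_set hsub)]
    congr 1
    rw [integral_Ioc_eq_integral_Ioo]
    have h : ∫ r in Ioo 0 R, r ^ (N - 1) * s r = ∫ r in Ioo 0 R, r ^ (N - 1) :=
      setIntegral_congr_fun measurableSet_Ioo fun r hr => by
        rw [hs1 r hr.1 hr.2, mul_one]
    rw [h, ← integral_Ioc_eq_integral_Ioo, ← intervalIntegral.integral_of_le hR.le, integral_pow]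
    have h3 : N - 1 + 1 = N := by omega
    have h4 : ((N - 1 : ℕ) : ℝ) + 1 = N := by
      rw [← Nat.cast_add_one, h3]
    rw [h3, h4, zero_pow (by omega), sub_zero]
  have k2 : ∫ r in Ioi (0 : ℝ), r ^ N * Real.exp (-r ^ 2) * s r =
      qq N R + ∫ r in Ioi R, r ^ N * Real.exp (-r ^ 2) * s r := by
    rw [← hun, setIntegral_union hdis measurableSet_Ioi (hs'.mono_set hsub') (hs'.mono_set hsub)]
    congr 1
    rw [integral_Ioc_eq_integral_Ioo]
    have h : ∫ r in Ioo 0 R, r ^ N * Real.exp (-r ^ 2) * s r =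
        ∫ r in Ioo 0 R, r ^ N * Real.exp (-r ^ 2) :=
      setIntegral_congr_fun measurableSet_Ioo fun r hr => by
        rw [hs1 r hr.1 hr.2, mul_one]
    rw [h, ← integral_Ioc_eq_integral_Ioo, ← intervalIntegral.integral_of_le hR.le]
    rfl
  rw [k1, k2, add_sub_cancel_left, add_sub_cancel_left]
  have n : 0 ≤ ∫ r in Ioi R, r ^ N * Real.exp (-r ^ 2) * s r := by
    refine setIntegral_nonneg measurableSet_Ioi fun r hr => ?_
    have hr0 : 0 < r := hR.trans hr
    have := hs0 r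
    positivity
  rw [abs_of_nonneg n]
  refine setIntegral_mono_on (hs'.mono_set hsub) (hs.mono_set hsub) measurableSet_Ioi
    fun r hr => ?_
  have hr0 : 0 < r := hR.trans hr
  have h5 := mul_exp_le_one r
  have h6 : 0 ≤ r ^ (N - 1) * s r := mul_nonneg (pow_nonneg hr0.le _) (hs0 r)
  rw [e1]
  nlinarith

theorem pf_V3 (hMP : T_MP) (hMO : T_MO) : T_V3 := by
  intro N Ω a b R hN ha hab hO hV hE hcen i
  obtain ⟨-, har, harN, hpol⟩ := hMP N hN
  obtain ⟨hone, hco, -⟩ := hMO N hN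
  have hN0 : (0 : ℝ) < N := by exact_mod_cast (by omega : 0 < N)
  have hN1 : (1 : ℝ) ≤ N := by exact_mod_cast (by omega : 1 ≤ N)
  have hBfin : volume (ball (0 : E N) 1) ≠ ⊤ := measure_ball_lt_top.ne
  have hOfin : volume Ω ≠ ⊤ := by rw [hV]; exact hBfin
  have hOm : MeasurableSet Ω := hO.measurableSet
  have hR0 : ∀ θ, 0 < R θ := fun θ => ha.trans (hE.lo θ)
  obtain ⟨s, hs⟩ : ∃ s : E N → ℝ, s = Ω.indicator fun _ => (1 : ℝ) := ⟨_, rfl⟩
  have hg1 : Integrable s := by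
    rw [hs]
    exact (integrable_indicator_iff hOm).2 (integrableOn_const hOfin)
  have hs0 : ∀ x, 0 ≤ s x := fun x => by
    rw [hs]
    exact indicator_nonneg (fun _ _ => zero_le_one) x
  have hg2 : Integrable fun x : E N => (x i * Real.exp (-‖x‖ ^ 2)) * s x := by
    refine hg1.bdd_mul (c := 1) (Continuous.aestronglyMeasurable (by fun_prop))
      (ae_of_all _ fun x => ?_)
    rw [Real.norm_eq_abs, abs_mul, abs_of_pos (Real.exp_pos _)]
    refine le_trans ?_ (mul_exp_le_one ‖x‖)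
    refine mul_le_mul_of_nonneg_right ?_ (Real.exp_pos _).le
    exact PiLp.norm_apply_le x i
  obtain ⟨p1, p2, p3⟩ := hpol _ hg1
  obtain ⟨-, q2, q3⟩ := hpol _ hg2
  obtain ⟨ρ, hρ⟩ : ∃ ρ : Sp N → ℝ, ρ = fun θ : Sp N => ∫ r in Ioi (0 : ℝ),
      r ^ (N - 1) * s (r • (θ : E N)) := ⟨_, rfl⟩
  obtain ⟨Q, hQ⟩ : ∃ Q : Sp N → ℝ, Q = fun θ : Sp N => ∫ r in Ioi (0 : ℝ),
      r ^ N * Real.exp (-r ^ 2) * s (r • (θ : E N)) := ⟨_, rfl⟩
  rw [← hρ] at p2 p3
  have eQ : (fun θ : Sp N => ∫ r in Ioi (0 : ℝ), r ^ (N - 1) *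
      (((r • (θ : E N)) i * Real.exp (-‖r • (θ : E N)‖ ^ 2)) * s (r • (θ : E N)))) =
      fun θ : Sp N => (θ : E N) i * Q θ := by
    funext θ
    rw [hQ]
    change _ = (θ : E N) i * ∫ r in Ioi (0 : ℝ), r ^ N * Real.exp (-r ^ 2) * s (r • (θ : E N))
    rw [← integral_const_mul]
    refine setIntegral_congr_fun measurableSet_Ioi fun r _ => ?_
    change r ^ (N - 1) * (((r • (θ : E N)) i * Real.exp (-‖r • (θ : E N)‖ ^ 2)) *
      s (r • (θ : E N))) = (θ : E N) i * (r ^ N * Real.exp (-r ^ 2) * s (r • (θ : E N)))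
    rw [norm_smul_sp, sq_abs, PiLp.smul_apply, smul_eq_mul]
    have e1 : r ^ N = r * r ^ (N - 1) := by
      rw [← pow_succ']
      congr 1
      omega
    rw [e1]
    ring
  rw [eQ] at q2 q3
  -- the two means
  have hv : ∫ x, s x = volume.real (ball (0 : E N) 1) := by
    rw [hs, integral_indicator hOm, setIntegral_const, smul_eq_mul, mul_one]
    unfold Measure.real
    rw [hV]
  have hv0 : 0 < volume.real (ball (0 : E N) 1) := by
    rw [harN] at har
    exact (pos_iff_pos_of_mul_pos har).1 hN0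
  have m1 : N * av ρ = 1 := by
    rw [hv, harN] at p3
    have h : volume.real (ball (0 : E N) 1) * (N * av ρ) =
        volume.real (ball (0 : E N) 1) * 1 := by
      linarith
    exact mul_left_cancel₀ hv0.ne' h
  have m2 : av (fun θ : Sp N => (θ : E N) i * Q θ) = 0 := by
    have h : ∫ x : E N, (x i * Real.exp (-‖x‖ ^ 2)) * s x = 0 := by
      rw [← hcen i, ← integral_indicator hOm]
      refine integral_congr_ae (ae_of_all _ fun x => ?_)
      change (x i * Real.exp (-‖x‖ ^ 2)) * s x =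
        Ω.indicator (fun x => x i * Real.exp (-‖x‖ ^ 2)) x
      rw [hs]
      by_cases hx : x ∈ Ω
      · rw [indicator_of_mem hx, indicator_of_mem hx, mul_one]
      · rw [indicator_of_notMem hx, indicator_of_notMem hx, mul_zero]
    rw [h] at q3
    have h' := q3.symm
    rcases mul_eq_zero.1 h' with h3 | h3
    · exact absurd h3 har.ne'
    · exact h3
  -- the pointwise inequality
  have key : ∀ᵐ θ : Sp N ∂(mS N), |Q θ - qq N (R θ)| ≤ ρ θ - R θ ^ N / N := by
    refine p1.mono fun θ hθ => ?_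
    rw [hQ, hρ]
    refine ray3 N (by omega) (R θ) (hR0 θ) (fun r => s (r • (θ : E N))) hθ (fun r => hs0 _)
      fun r h1 h2 => ?_
    rw [hs, indicator_of_mem (hE.ins θ r h1.le h2)]
  have bR : BM fun θ : Sp N => R θ ^ N := by
    refine ⟨hE.meas.pow_const N, b ^ N, fun θ => ?_⟩
    rw [abs_of_pos (pow_pos (hR0 θ) N)]
    exact pow_le_pow_left₀ (hR0 θ).le (hE.hi θ) N
  have bq : BM fun θ : Sp N => qq N (R θ) := by
    have h := BM_int (F := fun p : ℝ × Sp N => p.1 ^ N * Real.exp (-p.1 ^ 2)) (by fun_prop)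
      hE.meas 0 b (fun θ => ⟨(hR0 θ).le, hE.hi θ⟩)
    exact h
  have bc : BM fun θ : Sp N => (θ : E N) i := BM_coord i
  have eI : av (fun θ => (qq N (R θ) - qq N 1) * (θ : E N) i) =
      -(∫ θ : Sp N, ((θ : E N) i * Q θ - qq N (R θ) * (θ : E N) i) ∂(mS N)) := by
    have h1 : av (fun θ => (qq N (R θ) - qq N 1) * (θ : E N) i) =
        av (fun θ => qq N (R θ) * (θ : E N) i) - qq N 1 * av (fun θ : Sp N => (θ : E N) i) := by
      rw [← av_const_mul, ← av_sub (bq.mul bc) (bc.const_mul _)]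
      congr 1
      funext θ
      ring
    rw [h1, hco i, mul_zero, sub_zero, integral_sub q2 (bq.mul bc).integrable]
    change _ = -(av (fun θ : Sp N => (θ : E N) i * Q θ) - av (fun θ => qq N (R θ) * (θ : E N) i))
    rw [m2]
    ring
  have hb : |∫ θ : Sp N, ((θ : E N) i * Q θ - qq N (R θ) * (θ : E N) i) ∂(mS N)| ≤
      ∫ θ : Sp N, (ρ θ - R θ ^ N / N) ∂(mS N) := by
    have hi2 : Integrable (fun θ : Sp N => ρ θ - R θ ^ N / N) (mS N) :=
      p2.sub (bR.integrable.div_const _)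
    rw [← Real.norm_eq_abs]
    refine norm_integral_le_of_norm_le hi2 (key.mono fun θ hθ => ?_)
    have e : (θ : E N) i * Q θ - qq N (R θ) * (θ : E N) i = (θ : E N) i * (Q θ - qq N (R θ)) := by
      ring
    rw [e, norm_mul, Real.norm_eq_abs (Q θ - qq N (R θ))]
    have h1 : ‖(θ : E N) i‖ ≤ 1 := by
      have := PiLp.norm_apply_le (θ : E N) i
      rwa [norm_sp] at this
    calc ‖(θ : E N) i‖ * |Q θ - qq N (R θ)| ≤ 1 * |Q θ - qq N (R θ)| :=
          mul_le_mul_of_nonneg_right h1 (abs_nonneg _)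
      _ = |Q θ - qq N (R θ)| := one_mul _
      _ ≤ _ := hθ
  have eJ : ∫ θ : Sp N, (ρ θ - R θ ^ N / N) ∂(mS N) = (1 - av fun θ => R θ ^ N) / N := by
    rw [integral_sub p2 (bR.integrable.div_const _), integral_div]
    change av ρ - av (fun θ => R θ ^ N) / N = _
    have h : av ρ = 1 / N := by
      field_simp
      linarith
    rw [h]
    ring
  rw [eI, abs_neg]
  rw [eJ] at hb
  have h0 : 0 ≤ (1 - av fun θ => R θ ^ N) / N := (abs_nonneg _).trans hb
  have h1 : 0 ≤ 1 - av fun θ => R θ ^ N := by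
    by_contra h
    rw [not_le] at h
    exact absurd h0 (not_le.2 (div_neg_of_neg_of_pos h hN0))
  exact hb.trans (div_le_self h1 hN1)

end Pool.Agent.H42.LQ
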